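import Pool.Agent.Helper66.HK.Stmts
import Pool.Agent.Helper33.HD.Config

/-! Helper33: module LWR (lower bound for the entropy of the cube sums). -/

namespace Pool.Agent.Helper33.HK.LWR

open Finset Pool.Agent.Helper69.RK Pool.Agent.Helper66.HK Pool.Agent.Helper33.HD
open scoped Classical

theorem lwr_mass_push {Ω Ω' : Type} [Fintype Ω] [Fintype Ω'] (μ : Ω → ℝ) (μ' : Ω' → ℝ) (π : Ω' → Ω)
    (h : push π μ' = μ) (E : Ω → Prop) : mass (res μ' (fun w => E (π w))) = mass (res μ E) := by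
  unfold mass res
  rw [← h]
  unfold push
  have h1 : ∀ ω : Ω, (if E ω then ∑ w : Ω', (if π w = ω then μ' w else 0) else 0) =
      ∑ w : Ω', (if π w = ω then (if E ω then μ' w else 0) else 0) := by
    intro ω
    by_cases hE : E ω
    · simp [hE]
    · simp [hE]
  simp only [h1]
  rw [Finset.sum_comm]
  apply Finset.sum_congr rfl
  intro w _
  simp

theorem lwr_mass_or {Ω ι : Type} [Fintype Ω] [Fintype ι] (μ : Ω → ℝ) (hμ : ∀ ω, 0 ≤ μ ω) (B : ι → Ω → Prop) :
    mass (res μ (fun ω => ∃ l, B l ω)) ≤ ∑ l, mass (res μ (B l)) := by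
  unfold mass res
  rw [Finset.sum_comm]
  apply Finset.sum_le_sum
  intro ω _
  by_cases h : ∃ l, B l ω
  · rw [if_pos h]
    obtain ⟨l, hl⟩ := h
    calc μ ω = (if B l ω then μ ω else 0) := by rw [if_pos hl]
      _ ≤ ∑ l, (if B l ω then μ ω else 0) := by
        apply Finset.single_le_sum (f := fun l => if B l ω then μ ω else 0) (fun i _ => ?_) (mem_univ l)
        split_ifs
        · exact hμ ω
        · exact le_rfl
  · rw [if_neg h]
    apply Finset.sum_nonneg
    intro l _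
    split_ifs
    · exact hμ ω
    · exact le_rfl

theorem lwr_tuple (e1 : ST_E1) (e2 : ST_E2) {Ω ι α γ : Type} [Fintype Ω] (μ : Ω → ℝ) (hμ : ∀ ω, 0 ≤ μ ω)
    (f : ι → Ω → α) (g : Ω → γ) (F : Finset ι) :
    CH μ (fun ω => fun r : F => f r ω) g ≤ ∑ r ∈ F, CH μ (f r) g := by
  induction F using Finset.induction_on with
  | empty =>
    rw [Finset.sum_empty]
    apply le_of_eq
    apply e2.2.2 _ _ _ μ _ g hμ
    intro ω ω' _ _ _
    funext r
    exact absurd r.2 (Finset.notMem_empty _)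
  | insert r F hr ih =>
    rw [Finset.sum_insert hr]
    have h1 : CH μ (fun ω => fun r : (insert r F : Finset ι) => f r ω) g ≤
        CH μ (fun ω => (f r ω, fun r : F => f r ω)) g := by
      apply e2.1 _ _ _ _ μ _ _ g hμ
      intro ω ω' _ _ h
      have h2 := Prod.mk.inj (Prod.mk.inj h).1
      funext s
      obtain ⟨s, hs⟩ := s
      rw [mem_insert] at hs
      rcases hs with rfl | hs
      · exact h2.1
      · exact congrFun h2.2 ⟨s, hs⟩
    have h2 := (e1 Ω α (F → α) γ μ (f r) (fun ω => fun r : F => f r ω) g hμ).2.1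
    have h3 := (e1 Ω (F → α) α γ μ (fun ω => fun r : F => f r ω) (f r) g hμ).2.2
    rw [h2] at h1
    linarith

theorem lwr_floor (u v : ℝ) : |((⌊u⌋ : ℤ) : ℝ) - ((⌊v⌋ : ℤ) : ℝ)| ≤ |u - v| + 1 := by
  have h1 := Int.floor_le u
  have h2 := Int.lt_floor_add_one u
  have h3 := Int.floor_le v
  have h4 := Int.lt_floor_add_one v
  rw [abs_le]
  constructor
  · have := neg_abs_le (u - v)
    linarith
  · have := le_abs_self (u - v)
    linarith

/-- one cell of a point of a line at a height which is given up to its cell -/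
theorem lwr_cell {m : ℕ} (n : ℕ) (t : ℝ) (a x : Fin m → ℝ) (c : Fin m) (hx : 0 ≤ x c ∧ x c < 1) :
    |((cel n (Yt t a x) c : ℤ) : ℝ) -
      ((2 : ℝ) ^ n * a c + ((hn n t : ℤ) : ℝ) / 2 ^ n * ((2 : ℝ) ^ n * x c))| ≤ 2 := by
  have h2 : (0 : ℝ) < 2 ^ n := by positivity
  have e1 : ((hn n t : ℤ) : ℝ) / 2 ^ n * ((2 : ℝ) ^ n * x c) = (hn n t : ℝ) * x c := by
    field_simp
  rw [e1]
  unfold cel Yt
  have h3 := Int.floor_le ((2 : ℝ) ^ n * (a c + t * x c))
  have h4 := Int.lt_floor_add_one ((2 : ℝ) ^ n * (a c + t * x c))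
  have h5 : ((hn n t : ℤ) : ℝ) ≤ 2 ^ n * t := Int.floor_le _
  have h6 : 2 ^ n * t < (hn n t : ℤ) + 1 := Int.lt_floor_add_one _
  have h7 : (2 : ℝ) ^ n * (a c + t * x c) = 2 ^ n * a c + (2 ^ n * t) * x c := by ring
  rw [h7] at h3 h4 ⊢
  have h8 : 0 ≤ ((2 : ℝ) ^ n * t - (hn n t : ℤ)) * x c :=
    mul_nonneg (by linarith) hx.1
  have h9 : ((2 : ℝ) ^ n * t - (hn n t : ℤ)) * x c ≤ 1 := by
    have h10 : (2 : ℝ) ^ n * t - (hn n t : ℤ) ≤ 1 := by linarith
    have h11 : 0 ≤ (2 : ℝ) ^ n * t - (hn n t : ℤ) := by linarith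
    nlinarith [hx.1, hx.2]
  rw [abs_le]
  constructor
  · nlinarith
  · nlinarith

/-- deterministic part -/
theorem lwr_det (m k n w i : ℕ) (hik : i ≤ k) (κ : ℝ)
    (p : Fin (2 * k + 1) → ℤ) (t : Finset (Fin (2 * k + 1)) → ℝ)
    (a x a' x' : Finset (Fin (2 * k + 1)) → Fin m → ℝ) (hw : w ≤ n) (hκ : 0 ≤ κ)
    (hx : ∀ R c, 0 ≤ x R c ∧ x R c < 1) (hx' : ∀ R c, 0 ≤ x' R c ∧ x' R c < 1)
    (hp : ∀ S, hn n (t S) = hn n (t ∅) + ∑ l ∈ S, p l)
    (hp1 : ∀ l, |p l| ≤ 2 ^ (n - w)) (hp2 : ∀ l, (2 : ℝ) ^ (n - w) ≤ |(p l : ℝ)| * (2 : ℝ) ^ (κ * n))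
    (hD : ∀ R : Finset (Fin (2 * k + 1)), i < R.card → R.card ≤ k → a R = a' R ∧ x R = x' R)
    (hP : ∀ S : Finset (Fin (2 * k + 1)), S.card ≤ k + 1 →
      ∑ R ∈ S.powerset.filter (fun R => R.card ≤ k), cel n (Yt (t S) (a R) (x R)) =
        ∑ R ∈ S.powerset.filter (fun R => R.card ≤ k), cel n (Yt (t S) (a' R) (x' R))) :
    ∀ R : Finset (Fin (2 * k + 1)), R.card = i → ∀ c,
      |((cel n (x R) c : ℤ) : ℝ) - ((cel n (x' R) c : ℤ) : ℝ)| ≤
        (2 : ℝ) ^ ((w : ℝ) + (k + 1) * κ * n + ((2 * k + 1) * (k + 3) + 3 : ℕ)) := by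
  intro R0 hR0 c
  have h2n : (0 : ℝ) < 2 ^ n := by positivity
  set P : ℝ := ((2 : ℝ) ^ w)⁻¹ with hPdef
  have hP0 : 0 < P := by positivity
  have hPn : (2 : ℝ) ^ (n - w) / 2 ^ n = P := by
    have e1 : (2 : ℝ) ^ n = 2 ^ (n - w) * 2 ^ w := by
      rw [← pow_add]
      congr 1
      omega
    rw [e1, hPdef]
    field_simp
  set ρ : ℝ := ((2 : ℝ) ^ (κ * n))⁻¹ with hρdef
  have hq0 : (0 : ℝ) < (2 : ℝ) ^ (κ * n) := by positivity
  have hρ0 : 0 < ρ := by positivity
  set α : Finset (Fin (2 * k + 1)) → ℝ := fun R => if R.card ≤ k then 2 ^ n * (a R c - a' R c) else 0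
    with hα
  set ξ : Finset (Fin (2 * k + 1)) → ℝ := fun R => if R.card ≤ k then 2 ^ n * (x R c - x' R c) else 0
    with hξ
  have hcfg := config i (by rw [Fintype.card_fin]; omega) (((hn n (t ∅) : ℤ) : ℝ) / 2 ^ n)
    (fun l => ((p l : ℤ) : ℝ) / 2 ^ n) P ρ (4 * 2 ^ (2 * k + 1)) hρ0 hP0 ?_ ?_ α ξ ?_ ?_ ?_ R0 hR0
  · rw [Fintype.card_fin] at hcfg
    have hξR : ξ R0 = 2 ^ n * x R0 c - 2 ^ n * x' R0 c := by
      simp only [hξ]
      rw [if_pos (by omega)]
      ring
    have h1 : |((cel n (x R0) c : ℤ) : ℝ) - ((cel n (x' R0) c : ℤ) : ℝ)| ≤ |ξ R0| + 1 := by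
      rw [hξR]
      exact lwr_floor _ _
    refine h1.trans ?_
    have h2 : 2 ^ ((2 * k + 1) * (i + 2)) * (4 * 2 ^ (2 * k + 1)) / (P * ρ ^ (i + 1)) =
        (2 : ℝ) ^ ((w : ℝ) + (i + 1) * (κ * n) + ((2 * k + 1) * (i + 3) + 2 : ℕ)) := by
      rw [Real.rpow_add (by norm_num), Real.rpow_add (by norm_num), Real.rpow_natCast,
        Real.rpow_natCast, mul_comm ((i : ℝ) + 1) (κ * n), Real.rpow_mul (by norm_num)]
      have e2 : ((2 : ℝ) ^ (κ * n)) ^ ((i : ℝ) + 1) = ((2 : ℝ) ^ (κ * n)) ^ (i + 1) := by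
        rw [← Real.rpow_natCast]
        push_cast
        rfl
      rw [e2, hPdef, hρdef]
      have e3 : (2 * k + 1) * (i + 3) + 2 = (2 * k + 1) * (i + 2) + 2 + (2 * k + 1) := by ring
      have e9 : (2 : ℝ) ^ ((2 * k + 1) * (i + 3) + 2) =
          2 ^ ((2 * k + 1) * (i + 2)) * 4 * 2 ^ (2 * k + 1) := by
        rw [e3, pow_add, pow_add]
        norm_num
      rw [e9, inv_pow]
      have e8 : ((2 : ℝ) ^ (κ * n)) ^ (i + 1) ≠ 0 := by positivity
      generalize ((2 : ℝ) ^ (κ * n)) ^ (i + 1) = Q at e8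
      generalize (2 : ℝ) ^ ((2 * k + 1) * (i + 2)) = A
      generalize (2 : ℝ) ^ (2 * k + 1) = B
      field_simp
    rw [h2] at hcfg
    have h3 : (2 : ℝ) ^ ((w : ℝ) + (i + 1) * (κ * n) + ((2 * k + 1) * (i + 3) + 2 : ℕ)) ≤
        (2 : ℝ) ^ ((w : ℝ) + (k + 1) * κ * n + ((2 * k + 1) * (k + 3) + 2 : ℕ)) := by
      apply Real.rpow_le_rpow_of_exponent_le (by norm_num)
      have e4 : ((i : ℝ) + 1) * (κ * n) ≤ (k + 1) * κ * n := by
        have : (i : ℝ) ≤ k := by exact_mod_cast hik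
        have e5 : 0 ≤ κ * n := by positivity
        nlinarith
      have e6 : (((2 * k + 1) * (i + 3) + 2 : ℕ) : ℝ) ≤ (((2 * k + 1) * (k + 3) + 2 : ℕ) : ℝ) := by
        have : (2 * k + 1) * (i + 3) + 2 ≤ (2 * k + 1) * (k + 3) + 2 := by
          have : (2 * k + 1) * (i + 3) ≤ (2 * k + 1) * (k + 3) := Nat.mul_le_mul_left _ (by omega)
          omega
        exact_mod_cast this
      linarith
    have h4 : (2 : ℝ) ^ ((w : ℝ) + (k + 1) * κ * n + ((2 * k + 1) * (k + 3) + 3 : ℕ)) =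
        2 * (2 : ℝ) ^ ((w : ℝ) + (k + 1) * κ * n + ((2 * k + 1) * (k + 3) + 2 : ℕ)) := by
      have e7 : ((w : ℝ) + (k + 1) * κ * n + ((2 * k + 1) * (k + 3) + 3 : ℕ)) =
          1 + ((w : ℝ) + (k + 1) * κ * n + ((2 * k + 1) * (k + 3) + 2 : ℕ)) := by
        push_cast
        ring
      rw [e7, Real.rpow_add (by norm_num), Real.rpow_one]
    have h5 : (1 : ℝ) ≤ (2 : ℝ) ^ ((w : ℝ) + (k + 1) * κ * n + ((2 * k + 1) * (k + 3) + 2 : ℕ)) := by
      apply Real.one_le_rpow (by norm_num)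
      positivity
    rw [h4]
    linarith
  · intro l
    rw [abs_div, abs_of_pos h2n, ← hPn]
    have h1 : |((p l : ℤ) : ℝ)| ≤ 2 ^ (n - w) := by
      have := hp1 l
      rw [← Int.cast_abs]
      exact_mod_cast this
    gcongr
  · intro l
    rw [abs_div, abs_of_pos h2n, ← hPn, hρdef]
    have h1 := hp2 l
    rw [div_mul_eq_mul_div]
    apply div_le_div_of_nonneg_right _ h2n.le
    rw [← div_eq_mul_inv, div_le_iff₀ hq0]
    exact h1
  · intro R hR
    simp only [hα]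
    by_cases hk : R.card ≤ k
    · rw [if_pos hk, (hD R hR hk).1]
      ring
    · rw [if_neg hk]
  · intro R hR
    simp only [hξ]
    by_cases hk : R.card ≤ k
    · rw [if_pos hk, (hD R hR hk).2]
      ring
    · rw [if_neg hk]
  · intro S hS
    have hS' : S.card ≤ k + 1 := by omega
    have e1 : ((hn n (t ∅) : ℤ) : ℝ) / 2 ^ n + ∑ l ∈ S, ((p l : ℤ) : ℝ) / 2 ^ n =
        ((hn n (t S) : ℤ) : ℝ) / 2 ^ n := by
      rw [hp S]
      push_cast
      rw [← Finset.sum_div, add_div]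
    rw [e1]
    have e2 : ∑ R ∈ S.powerset, (α R + ((hn n (t S) : ℤ) : ℝ) / 2 ^ n * ξ R) =
        ∑ R ∈ S.powerset.filter (fun R => R.card ≤ k),
          ((2 ^ n * a R c + ((hn n (t S) : ℤ) : ℝ) / 2 ^ n * (2 ^ n * x R c)) -
            (2 ^ n * a' R c + ((hn n (t S) : ℤ) : ℝ) / 2 ^ n * (2 ^ n * x' R c))) := by
      rw [Finset.sum_filter]
      apply Finset.sum_congr rfl
      intro R _
      simp only [hα, hξ]
      by_cases hk : R.card ≤ k
      · rw [if_pos hk, if_pos hk, if_pos hk]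
        ring
      · rw [if_neg hk, if_neg hk, if_neg hk]
        ring
    rw [e2]
    have e3 : ∑ R ∈ S.powerset.filter (fun R => R.card ≤ k),
          (((cel n (Yt (t S) (a R) (x R)) c : ℤ) : ℝ) - ((cel n (Yt (t S) (a' R) (x' R)) c : ℤ) : ℝ)) =
        0 := by
      rw [Finset.sum_sub_distrib, sub_eq_zero]
      have := congrFun (hP S hS') c
      rw [Finset.sum_apply, Finset.sum_apply] at this
      exact_mod_cast this
    have e4 : ∑ R ∈ S.powerset.filter (fun R => R.card ≤ k),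
          ((2 ^ n * a R c + ((hn n (t S) : ℤ) : ℝ) / 2 ^ n * (2 ^ n * x R c)) -
            (2 ^ n * a' R c + ((hn n (t S) : ℤ) : ℝ) / 2 ^ n * (2 ^ n * x' R c))) =
        ∑ R ∈ S.powerset.filter (fun R => R.card ≤ k),
          ((2 ^ n * a R c + ((hn n (t S) : ℤ) : ℝ) / 2 ^ n * (2 ^ n * x R c)) -
            (2 ^ n * a' R c + ((hn n (t S) : ℤ) : ℝ) / 2 ^ n * (2 ^ n * x' R c)) -
            (((cel n (Yt (t S) (a R) (x R)) c : ℤ) : ℝ) -
              ((cel n (Yt (t S) (a' R) (x' R)) c : ℤ) : ℝ))) := by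
      rw [Finset.sum_sub_distrib (f := fun R => ((2 : ℝ) ^ n * a R c +
        ((hn n (t S) : ℤ) : ℝ) / 2 ^ n * (2 ^ n * x R c)) -
            (2 ^ n * a' R c + ((hn n (t S) : ℤ) : ℝ) / 2 ^ n * (2 ^ n * x' R c))), e3, sub_zero]
    rw [e4]
    calc _ ≤ ∑ R ∈ S.powerset.filter (fun R => R.card ≤ k),
          |((2 ^ n * a R c + ((hn n (t S) : ℤ) : ℝ) / 2 ^ n * (2 ^ n * x R c)) -
            (2 ^ n * a' R c + ((hn n (t S) : ℤ) : ℝ) / 2 ^ n * (2 ^ n * x' R c)) -
            (((cel n (Yt (t S) (a R) (x R)) c : ℤ) : ℝ) -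
              ((cel n (Yt (t S) (a' R) (x' R)) c : ℤ) : ℝ)))| := Finset.abs_sum_le_sum_abs _ _
      _ ≤ ∑ R ∈ S.powerset.filter (fun R => R.card ≤ k), (4 : ℝ) := by
        apply Finset.sum_le_sum
        intro R _
        have g1 := lwr_cell n (t S) (a R) (x R) c (hx R c)
        have g2 := lwr_cell n (t S) (a' R) (x' R) c (hx' R c)
        rw [abs_le] at g1 g2 ⊢
        constructor
        · linarith [g1.1, g1.2, g2.1, g2.2]
        · linarith [g1.1, g1.2, g2.1, g2.2]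
      _ = ((S.powerset.filter (fun R => R.card ≤ k)).card : ℝ) * 4 := by
        rw [Finset.sum_const, nsmul_eq_mul]
      _ ≤ 4 * 2 ^ (2 * k + 1) := by
        have g3 : (S.powerset.filter (fun R => R.card ≤ k)).card ≤ 2 ^ (2 * k + 1) := by
          calc (S.powerset.filter (fun R => R.card ≤ k)).card ≤ S.powerset.card := card_filter_le _ _
            _ = 2 ^ S.card := card_powerset S
            _ ≤ 2 ^ (2 * k + 1) := by
              apply Nat.pow_le_pow_right (by norm_num)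
              have := Finset.card_le_univ S
              rwa [Fintype.card_fin] at this
        have g4 : ((S.powerset.filter (fun R => R.card ≤ k)).card : ℝ) ≤ 2 ^ (2 * k + 1) := by
          exact_mod_cast g3
        linarith

/-- conditional entropy of one direction, given the cube sums and everything above its level -/
theorem lwr_one (e3 : ST_E3) (e4 : ST_E4) (m k n w i : ℕ) (hik : i ≤ k) (κ s : ℝ) {Ω Ω' kt : Type}
    [Fintype Ω] [Fintype Ω'] (μ : Ω → ℝ) (μ' : Ω' → ℝ)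
    (π : Finset (Fin (2 * k + 1)) → Ω' → Ω) (K : Ω → kt) (a x : Ω → Fin m → ℝ)
    (t : Finset (Fin (2 * k + 1)) → Ω → ℝ) (p : Fin (2 * k + 1) → Ω → ℤ) (hw : w ≤ n) (hκ : 0 ≤ κ)
    (hμ : ∀ ω, 0 ≤ μ ω) (hm : mass μ = 1)
    (hx : ∀ ω i, 0 ≤ x ω i ∧ x ω i < 1) (ht : ∀ S, Dep μ K (t S))
    (hp : ∀ S ω, μ ω ≠ 0 → hn n (t S ω) = hn n (t ∅ ω) + ∑ i ∈ S, p i ω)
    (hp1 : ∀ i ω, μ ω ≠ 0 → |p i ω| ≤ 2 ^ (n - w))
    (hp2 : ∀ i, mass (res μ (fun ω => |(p i ω : ℝ)| * (2 : ℝ) ^ (κ * n) < 2 ^ (n - w))) ≤ s)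
    (hI : IIDc μ K μ' π) (R : Finset (Fin (2 * k + 1))) (hR : R.card = i) :
    CH μ' (fun v => cel n (x (π R v)))
      (fun v => ((fun S : {S : Finset (Fin (2 * k + 1)) // S.card ≤ k + 1} =>
          ∑ R ∈ S.1.powerset.filter (fun R => R.card ≤ k), cel n (Yt (t S.1 (π ∅ v)) (a (π R v)) (x (π R v)))),
        ((fun R : (univ.filter (fun R : Finset (Fin (2 * k + 1)) => i + 1 ≤ R.card ∧ R.card ≤ k)) =>
          (a (π R v), x (π R v))), K (π ∅ v)))) ≤
      m * (w + (k + 1) * κ * n + (((2 * k + 1) * (k + 3) + 4 : ℕ) : ℝ)) + m * n * ((2 * k + 1) * s) := by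
  set gg : Ω' → _ := (fun v => ((fun S : {S : Finset (Fin (2 * k + 1)) // S.card ≤ k + 1} =>
          ∑ R ∈ S.1.powerset.filter (fun R => R.card ≤ k), cel n (Yt (t S.1 (π ∅ v)) (a (π R v)) (x (π R v)))),
        ((fun R : (univ.filter (fun R : Finset (Fin (2 * k + 1)) => i + 1 ≤ R.card ∧ R.card ≤ k)) =>
          (a (π R v), x (π R v))), K (π ∅ v)))) with hgg
  set E : Ω' → Prop := fun v => ¬ ∃ l, |(p l (π ∅ v) : ℝ)| * (2 : ℝ) ^ (κ * n) < 2 ^ (n - w) with hE
  have hμ' := hI.nn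
  have hpK : ∀ v v', μ' v ≠ 0 → μ' v' ≠ 0 → K (π ∅ v) = K (π ∅ v') → ∀ l, p l (π ∅ v) = p l (π ∅ v') := by
    intro v v' hv hv' hK l
    have h1 := hp {l} (π ∅ v) (hI.su v hv ∅)
    have h2 := hp {l} (π ∅ v') (hI.su v' hv' ∅)
    rw [Finset.sum_singleton] at h1 h2
    have h3 := ht {l} _ _ (hI.su v hv ∅) (hI.su v' hv' ∅) hK
    have h4 := ht ∅ _ _ (hI.su v hv ∅) (hI.su v' hv' ∅) hK
    rw [h3, h4, h2] at h1
    linarith
  have hDep : Dep μ' gg E := by
    intro v v' hv hv' hg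
    have h1 : K (π ∅ v) = K (π ∅ v') := (Prod.mk.inj (Prod.mk.inj hg).2).2
    have h2 := hpK v v' hv hv' h1
    simp only [hE, eq_iff_iff]
    simp only [h2]
  have hsplit := e4.1 Ω' _ _ μ' (fun v => cel n (x (π R v))) gg E hμ' hDep
  rw [hsplit]
  have hmass := e4.2.2 Ω' μ' E hμ'
  have hmass2 := e4.2.2 Ω' μ' (fun v => ¬ E v) hμ'
  have hm' : mass μ' = 1 := by
    have h1 := lwr_mass_push μ μ' (π ∅) (hI.pu ∅) (fun _ => True)
    unfold res at h1
    simp only [if_true] at h1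
    change mass μ' = mass μ at h1
    rw [h1, hm]
  have b1 : CH (res μ' E) (fun v => cel n (x (π R v))) gg ≤
      m * (w + (k + 1) * κ * n + (((2 * k + 1) * (k + 3) + 4 : ℕ) : ℝ)) := by
    set K1 : ℝ := (2 : ℝ) ^ ((w : ℝ) + (k + 1) * κ * n + ((2 * k + 1) * (k + 3) + 3 : ℕ)) with hK1
    have hK1p : 1 ≤ K1 := by
      rw [hK1]
      apply Real.one_le_rpow (by norm_num)
      positivity
    have h1 := e3.2 Ω' _ m (res μ' E) (fun v => cel n (x (π R v))) gg K1 hmass.2.2 (by linarith) ?_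
    · have h2 : Real.logb 2 (K1 + 1) ≤ w + (k + 1) * κ * n + (((2 * k + 1) * (k + 3) + 4 : ℕ) : ℝ) := by
        have h3 : K1 + 1 ≤ (2 : ℝ) ^ ((w : ℝ) + (k + 1) * κ * n + (((2 * k + 1) * (k + 3) + 4 : ℕ) : ℝ)) := by
          have h4 : ((w : ℝ) + (k + 1) * κ * n + (((2 * k + 1) * (k + 3) + 4 : ℕ) : ℝ)) =
              ((w : ℝ) + (k + 1) * κ * n + ((2 * k + 1) * (k + 3) + 3 : ℕ)) + 1 := by
            push_cast
            ring
          rw [h4, Real.rpow_add (by norm_num), Real.rpow_one, ← hK1]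
          linarith
        calc Real.logb 2 (K1 + 1) ≤ Real.logb 2
              ((2 : ℝ) ^ ((w : ℝ) + (k + 1) * κ * n + (((2 * k + 1) * (k + 3) + 4 : ℕ) : ℝ))) :=
              Real.logb_le_logb_of_le (by norm_num) (by linarith) h3
          _ = _ := Real.logb_rpow (by norm_num) (by norm_num)
      have h5 : mass (res μ' E) ≤ 1 := by
        have := hmass2.2.1
        linarith [hmass.1]
      have h6 : 0 ≤ mass (res μ' E) := hmass.2.1
      have h7 : 0 ≤ Real.logb 2 (K1 + 1) := Real.logb_nonneg (by norm_num) (by linarith)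
      calc _ ≤ _ := h1
        _ ≤ m * Real.logb 2 (K1 + 1) * 1 := by gcongr
        _ = m * Real.logb 2 (K1 + 1) := by ring
        _ ≤ _ := by gcongr
    · intro v v' hv hv' hg c
      have hv1 : μ' v ≠ 0 ∧ E v := by
        unfold res at hv
        by_cases h : E v
        · rw [if_pos h] at hv
          exact ⟨hv, h⟩
        · rw [if_neg h] at hv
          exact absurd rfl hv
      have hv2 : μ' v' ≠ 0 ∧ E v' := by
        unfold res at hv'
        by_cases h : E v'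
        · rw [if_pos h] at hv'
          exact ⟨hv', h⟩
        · rw [if_neg h] at hv'
          exact absurd rfl hv'
      have g1 := (Prod.mk.inj hg).1
      have g2 := (Prod.mk.inj (Prod.mk.inj hg).2).1
      have g3 : K (π ∅ v) = K (π ∅ v') := (Prod.mk.inj (Prod.mk.inj hg).2).2
      have g4 : ∀ S, t S (π ∅ v) = t S (π ∅ v') := fun S =>
        ht S _ _ (hI.su v hv1.1 ∅) (hI.su v' hv2.1 ∅) g3
      refine lwr_det m k n w i hik κ (fun l => p l (π ∅ v)) (fun S => t S (π ∅ v))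
        (fun R => a (π R v)) (fun R => x (π R v)) (fun R => a (π R v')) (fun R => x (π R v')) hw hκ
        (fun R c => hx _ c) (fun R c => hx _ c) (fun S => hp S _ (hI.su v hv1.1 ∅))
        (fun l => hp1 l _ (hI.su v hv1.1 ∅)) ?_ ?_ ?_ R hR c
      · intro l
        have := hv1.2
        simp only [hE] at this
        push Not at this
        exact this l
      · intro R' hR' hR'k
        have := congrFun g2 ⟨R', by rw [mem_filter]; exact ⟨mem_univ _, hR', hR'k⟩⟩
        exact ⟨(Prod.mk.inj this).1, (Prod.mk.inj this).2⟩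
      · intro S hS
        have := congrFun g1 ⟨S, hS⟩
        simp only at this
        rw [← g4 S] at this
        exact this
  have b2 : CH (res μ' (fun v => ¬ E v)) (fun v => cel n (x (π R v))) gg ≤ m * n * ((2 * k + 1) * s) := by
    have h1 := e3.2 Ω' _ m (res μ' (fun v => ¬ E v)) (fun v => cel n (x (π R v))) gg (2 ^ n - 1)
      hmass2.2.2 (by
        have : (1 : ℝ) ≤ 2 ^ n := one_le_pow₀ (by norm_num)
        linarith) ?_
    · rw [sub_add_cancel] at h1
      have h2 : Real.logb 2 ((2 : ℝ) ^ n) = n := by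
        rw [← Real.rpow_natCast, Real.logb_rpow (by norm_num) (by norm_num)]
      rw [h2] at h1
      refine h1.trans ?_
      have h3 : mass (res μ' (fun v => ¬ E v)) ≤ (2 * k + 1) * s := by
        have h4 : mass (res μ' (fun v => ¬ E v)) = mass (res μ
            (fun ω => ∃ l, |(p l ω : ℝ)| * (2 : ℝ) ^ (κ * n) < 2 ^ (n - w))) := by
          rw [← lwr_mass_push μ μ' (π ∅) (hI.pu ∅)]
          simp only [hE, not_not]
        rw [h4]
        refine (lwr_mass_or μ hμ _).trans ?_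
        calc ∑ l : Fin (2 * k + 1), mass (res μ (fun ω => |(p l ω : ℝ)| * (2 : ℝ) ^ (κ * n) < 2 ^ (n - w)))
            ≤ ∑ l : Fin (2 * k + 1), s := Finset.sum_le_sum (fun l _ => hp2 l)
          _ = (2 * k + 1) * s := by
            rw [Finset.sum_const, card_univ, Fintype.card_fin, nsmul_eq_mul]
            push_cast
            ring
      gcongr
    · intro v v' _ _ _ c
      have g1 : ∀ v : Ω', (0 : ℝ) ≤ ((cel n (x (π R v)) c : ℤ) : ℝ) ∧
          ((cel n (x (π R v)) c : ℤ) : ℝ) ≤ 2 ^ n - 1 := by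
        intro v
        unfold cel
        have h3 := hx (π R v) c
        have h2n : (0 : ℝ) < 2 ^ n := by positivity
        constructor
        · have : (0 : ℤ) ≤ ⌊(2 : ℝ) ^ n * x (π R v) c⌋ := by
            apply Int.floor_nonneg.mpr
            exact mul_nonneg h2n.le h3.1
          exact_mod_cast this
        · have : ⌊(2 : ℝ) ^ n * x (π R v) c⌋ < (2 : ℤ) ^ n := by
            rw [Int.floor_lt]
            push_cast
            nlinarith [h3.2]
          have h4 : ⌊(2 : ℝ) ^ n * x (π R v) c⌋ ≤ (2 : ℤ) ^ n - 1 := by omega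
          exact_mod_cast h4
      have h3 := g1 v
      have h4 := g1 v'
      rw [abs_le]
      constructor
      · linarith [h3.1, h4.2]
      · linarith [h3.2, h4.1]
  linarith

theorem st_LWR (e1 : ST_E1) (e2 : ST_E2) (e3 : ST_E3) (e4 : ST_E4) : ST_LWR := by
  intro m k
  refine ⟨4 ^ k * (m * (((2 * k + 1) * (k + 3) + 4 : ℕ) : ℝ)), by positivity, ?_⟩
  intro n w κ s Ω Ω' kt _ _ μ μ' π K a x t p hw hκ hs hμ hm ha hx htb ht hp hp1 hp2 hI
  have hμ' := hI.nn
  set Pf : Ω' → _ := (fun v => fun S : {S : Finset (Fin (2 * k + 1)) // S.card ≤ k + 1} =>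
          ∑ R ∈ S.1.powerset.filter (fun R => R.card ≤ k), cel n (Yt (t S.1 (π ∅ v)) (a (π R v)) (x (π R v))))
    with hPf
  set Hi : ℕ → Finset (Finset (Fin (2 * k + 1))) := fun j =>
    univ.filter (fun R : Finset (Fin (2 * k + 1)) => j ≤ R.card ∧ R.card ≤ k) with hHi
  set cc : ℝ := CH μ (fun ω => cel n (x ω)) K - (m * (w + (k + 1) * κ * n +
    (((2 * k + 1) * (k + 3) + 4 : ℕ) : ℝ)) + m * n * ((2 * k + 1) * s)) with hcc
  -- one level
  have step : ∀ i ≤ k, CH μ' Pf (fun v => ((fun R : Hi i => (a (π R v), x (π R v))), K (π ∅ v))) +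
      ((2 * k + 1).choose i : ℝ) * cc ≤
      CH μ' Pf (fun v => ((fun R : Hi (i + 1) => (a (π R v), x (π R v))), K (π ∅ v))) := by
    intro i hik
    set Lev : Finset (Finset (Fin (2 * k + 1))) := powersetCard i univ with hLev
    set gg : Ω' → _ := (fun v => ((fun R : Hi (i + 1) => (a (π R v), x (π R v))), K (π ∅ v))) with hgg
    set X : Ω' → _ := (fun v => fun R : Lev => cel n (x (π R v))) with hX
    have hdisj : Disjoint Lev (Hi (i + 1)) := by
      rw [Finset.disjoint_left]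
      intro R h1 h2
      rw [hLev, mem_powersetCard] at h1
      simp only [hHi, mem_filter] at h2
      omega
    have s1 : CH μ' X gg = ((2 * k + 1).choose i : ℝ) * CH μ (fun ω => cel n (x ω)) K := by
      have h1 := hI.ind _ _ Lev (Hi (i + 1)) (fun _ ω => cel n (x ω)) (fun _ ω => (a ω, x ω)) ∅ hdisj
      rw [Finset.sum_const, hLev, card_powersetCard, card_univ, Fintype.card_fin, nsmul_eq_mul] at h1
      exact h1
    have s2 : CH μ' X (fun v => (Pf v, gg v)) ≤ ((2 * k + 1).choose i : ℝ) *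
        (m * (w + (k + 1) * κ * n + (((2 * k + 1) * (k + 3) + 4 : ℕ) : ℝ)) + m * n * ((2 * k + 1) * s)) := by
      refine (lwr_tuple e1 e2 μ' hμ' (fun R v => cel n (x (π R v))) (fun v => (Pf v, gg v)) Lev).trans ?_
      calc ∑ R ∈ Lev, CH μ' (fun v => cel n (x (π R v))) (fun v => (Pf v, gg v))
          ≤ ∑ R ∈ Lev, (m * (w + (k + 1) * κ * n + (((2 * k + 1) * (k + 3) + 4 : ℕ) : ℝ)) +
            m * n * ((2 * k + 1) * s)) := by
            apply Finset.sum_le_sum
            intro R hR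
            rw [hLev, mem_powersetCard] at hR
            exact lwr_one e3 e4 m k n w i hik κ s μ μ' π K a x t p hw hκ hμ hm hx ht hp hp1 hp2 hI R hR.2
        _ = _ := by
            rw [Finset.sum_const, hLev, card_powersetCard, card_univ, Fintype.card_fin, nsmul_eq_mul]
    have s3 := (e1 Ω' _ _ _ μ' Pf X gg hμ').2.1
    have s4 := (e1 Ω' _ _ _ μ' X Pf gg hμ').2.1
    have s5 : CH μ' (fun v => (X v, Pf v)) gg ≤ CH μ' (fun v => (Pf v, X v)) gg := by
      apply e2.1 _ _ _ _ μ' _ _ gg hμ'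
      intro v v' _ _ h
      have h1 := (Prod.mk.inj h).1
      have h2 := Prod.mk.inj h1
      simp only [h2.1, h2.2]
    have s6 : CH μ' Pf (fun v => ((fun R : Hi i => (a (π R v), x (π R v))), K (π ∅ v))) ≤
        CH μ' Pf (fun v => (X v, gg v)) := by
      apply e2.2.1 _ _ _ _ μ' Pf _ _ hμ'
      intro v v' _ _ h
      have h1 := Prod.mk.inj h
      have hR : ∀ R ∈ Hi i, (a (π R v), x (π R v)) = (a (π R v'), x (π R v')) := fun R hR =>
        congrFun h1.1 ⟨R, hR⟩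
      simp only [hX, hgg]
      have g1 : (fun R : Lev => cel n (x (π R v))) = (fun R : Lev => cel n (x (π R v'))) := by
        funext R
        have hmem : (R : Finset (Fin (2 * k + 1))) ∈ Hi i := by
          have h7 : (R : Finset (Fin (2 * k + 1))).card = i := (mem_powersetCard.mp R.2).2
          simp only [hHi, mem_filter, mem_univ, true_and]
          omega
        rw [(Prod.mk.inj (hR _ hmem)).2]
      have g2 : (fun R : Hi (i + 1) => (a (π R v), x (π R v))) =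
          (fun R : Hi (i + 1) => (a (π R v'), x (π R v'))) := by
        funext R
        apply hR
        have := R.2
        simp only [hHi, mem_filter, mem_univ, true_and] at this ⊢
        omega
      rw [g1, g2, h1.2]
    rw [hcc, mul_sub]
    linarith
  -- sum of the levels
  have hsum : ∀ j, j ≤ k + 1 → CH μ' Pf (fun v => ((fun R : Hi 0 => (a (π R v), x (π R v))), K (π ∅ v))) +
      (∑ i ∈ range j, ((2 * k + 1).choose i : ℝ)) * cc ≤
      CH μ' Pf (fun v => ((fun R : Hi j => (a (π R v), x (π R v))), K (π ∅ v))) := by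
    intro j
    induction j with
    | zero =>
      intro _
      simp
    | succ j ih =>
      intro hj
      rw [Finset.sum_range_succ, add_mul]
      have h1 := ih (by omega)
      have h2 := step j (by omega)
      linarith
  have h1 := hsum (k + 1) le_rfl
  have h2 : (∑ i ∈ range (k + 1), ((2 * k + 1).choose i : ℝ)) = 4 ^ k := by
    have := Nat.sum_range_choose_halfway k
    exact_mod_cast this
  rw [h2] at h1
  have h3 := (e1 Ω' _ _ _ μ' Pf (fun v => fun R : Hi (k + 1) => (a (π R v), x (π R v)))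
    (fun v => K (π ∅ v)) hμ').2.2
  have h4 := (e1 Ω' _ _ _ μ' Pf (fun v => fun R : Hi 0 => (a (π R v), x (π R v)))
    (fun v => ((fun R : Hi 0 => (a (π R v), x (π R v))), K (π ∅ v))) hμ').1
  have h5 : (4 : ℝ) ^ k * (CH μ (fun ω => cel n (x ω)) K - m * (w + (k + 1) * κ * n + (2 * k + 1) * s * n)) -
      4 ^ k * (m * (((2 * k + 1) * (k + 3) + 4 : ℕ) : ℝ)) = 4 ^ k * cc := by
    rw [hcc]
    ring
  rw [h5]
  linarith

end Pool.Agent.Helper33.HK.LWR
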